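import Pool.Agent.Q297.GrrGraph

open MeasureTheory Q297.Factor

namespace Pool.Agent.Results.MP_a13a55_pr.InfiniteMonoPath

/-- **A transitive graph with a factor-of-iid Schreier decoration that has an infinite
monochromatic path.** -/
theorem result :
    ∃ (V : Type) (_ : Countable V) (G : SimpleGraph V) (d : ℕ), 1 ≤ d ∧ G.Connected ∧
      (∀ v, (G.neighborSet v).encard = 2 * d) ∧ (∀ u v, ∃ γ : G ≃g G, γ u = v) ∧
      ∃ Φ : (V → unitInterval) → V → V → Option (Fin d), IsFactor G Φ ∧
        ∀ ω, IsSchreier G d (Φ ω) ∧ ∃ c : Fin d, ∃ p : ℤ → V, Function.Injective p ∧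
          ∀ n, Φ ω (p n) (p (n + 1)) = some c := by
  have : Countable (DihedralGroup 3) := by
    have : Finite (DihedralGroup 3) := inferInstance
    exact Finite.to_countable
  refine ⟨Q297.Grr.V, inferInstance, Q297.Grr.G, 6, by norm_num, Q297.Grr.connected,
    Q297.Grr.regular, Q297.Grr.transitive, fun _ => Q297.Grr.D, Q297.Grr.isFactor, ?_⟩
  intro ω
  exact ⟨Q297.Grr.isSchreier, 3, Q297.Grr.exists_path⟩

end Pool.Agent.Results.MP_a13a55_pr.InfiniteMonoPath
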